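import Pool.Agent.N375.AV.D
import Pool.Agent.N375.AV.Ex
import Pool.Agent.V7H35.GoldCount

/-!
# Goldbach with a prime in `(√N, 4 √N)`, or at any scale, and an almost prime, for ALL even numbers near values of additive
functions and their compositions

Let `F = f_1 ∘ ⋯ ∘ f_k` be a composition of functions dominated by the largest prime factor: for example additive functions
`f` with `f (q^j) ≤ C q^j` at the prime powers, with different values at different large primes (the sum of the prime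
factors), the largest prime factor itself, and Kempner's function. Let `G` have steps bounded below by a positive constant and
growth at most `v ^ d`, for example `G v = v` or `a v^d`.

* If `d / 29 + κ < 1`, then for all `m ≤ X` but `K X exp (- c (log X)^(1 / (k + 1)))`, ALL even `N` with
  `|N - G (F m)| ≤ F(m) ^ κ` have at least `δ 𝔖(N) √N / (log N) ^ 2` primes `p` in `(√N, 4 √N)` such that `N - p` has at most
  four prime factors; with three prime factors the condition is `2 d / 9 + κ < 1`.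
* Let `0 < ϑ ≤ 1`, `ϑ / 2 ≤ σ < ϑ`, `σ Λ_r > 1` and `d (2 σ - ϑ) + κ < 1`. Then for all `m ≤ X` but
  `K X exp (- c (log X)^(1 / (k + 1)))` ALL even `N` near `G (F m)` have, for EVERY `x` with `N ^ ϑ ≤ x ≤ N / 2`, at least
  `δ 𝔖(N) x / (log N) ^ 2` primes `p` in `(x / 4, x)` such that `N - p` has at most `r` prime factors.

The values of `F` are taken with very large multiplicities and `F(m)` is in general much smaller than `m`; and so this does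
not follow from the number of exceptional `N`.
-/

set_option autoImplicit false

namespace Pool.Agent.Results.MP_b58c63_nt.AdditiveValuesH35

open Finset
open FewExceptionsAllScales (sing richert inWindow)
open Pool.Agent.V7H35.GoldCount (Good GoodScale count_sqrt count_scale weaken room)
open Pool.Agent.N733.TG (Expanding expanding_pow)
open Pool.Agent.N375.AV (PD comp good_nat pd_additive pd_largest pd_kempner)

lemma sqrt_part (r : ℕ) (ζ s : ℝ) (hs : 0 ≤ s)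
    (h : ∃ δ C : ℝ, 0 < δ ∧ 0 < C ∧ ∀ X : ℕ, 1 ≤ X →
      (by classical exact (((Icc 1 X).filter (fun N : ℕ => Even N ∧ (inWindow r ζ (4 * √(N : ℝ)) N : ℝ) <
        δ * sing N * (√(N : ℝ) / Real.log N ^ 2))).card : ℝ)) ≤ C * (X : ℝ) ^ s) :
    ∃ δ : ℝ, 0 < δ ∧ ∀ fs : List (ℕ → ℕ), (∀ f ∈ fs, PD f) → ∀ (G : ℕ → ℝ) (d : ℝ), Expanding G d → ∀ κ : ℝ, 0 ≤ κ →
      d * s + κ < 1 → ∃ c K : ℝ, 0 < c ∧ ∀ X : ℕ, 1 ≤ X →
        ({m : ℕ | 1 ≤ m ∧ m ≤ X ∧ ¬ ∀ N : ℕ, 1 ≤ N → Even N → |(N : ℝ) - G (comp fs m)| ≤ (comp fs m : ℝ) ^ κ →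
          Good r ζ δ N}.ncard : ℝ) ≤ K * X * Real.exp (-(c * Real.log X ^ ((1 : ℝ) / (fs.length + 1)))) := by
  classical
  obtain ⟨δ, hδ, C, hC, h⟩ := count_sqrt r ζ s (by
    obtain ⟨δ, C, h1, h2, h3⟩ := h
    exact ⟨δ, C, h1, h2, fun X hX => by convert h3 X hX⟩)
  exact ⟨δ, hδ, fun fs hfs G d hG κ hκ h1 => good_nat Even (Good r ζ δ) fs hfs hG hs hκ h1
    (weaken (P := fun X t => 1 ≤ t ∧ t ≤ X ∧ Even t ∧ ¬ Good r ζ δ t) hC h)⟩

/-- **Theorem.** Let `f_i` be functions dominated by the largest prime factor (`PD`), `F = f_1 ∘ ⋯ ∘ f_k` their composition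
(`comp fs`), `G` with steps `≥ a > 0` and growth at most `v ^ d`, and `κ ≥ 0`. (1) If `2 d / 9 + κ < 1`, then for all `m ≤ X`
but `K X exp (- c (log X)^(1 / (k + 1)))` ALL even `N ≥ 1` with `|N - G (F m)| ≤ F(m) ^ κ` have at least
`δ 𝔖(N) √N / (log N) ^ 2` primes `p` in `(√N, 4 √N)` such that `N - p` has at most three prime factors, all at least
`N ^ (9 / 100) / 2`; `δ > 0` is absolute. (2) The same with four prime factors, all at least `N ^ (1 / 15) / 2`, if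
`d / 29 + κ < 1`. (3) Let `r ≥ 1`, `0 < ϑ ≤ 1`, `ϑ / 2 ≤ σ < ϑ`, `σ Λ_r > 1` and `d (2 σ - ϑ) + κ < 1`. There is a `δ > 0`,
depending only on `r, ϑ, σ, d, κ`, such that for all `F` and `G` as above, for all `m ≤ X` but
`K X exp (- c (log X)^(1 / (k + 1)))`, ALL even `N ≥ 1` with `|N - G (F m)| ≤ F(m) ^ κ` have, for EVERY `x` with
`N ^ ϑ ≤ x ≤ N / 2`, at least `δ 𝔖(N) x / (log N) ^ 2` primes `p` in `(x / 4, x)` such that `N - p` has at most `r` prime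
factors. (4) - (6) Examples of functions `f_i` and `G`. -/
theorem result :
    (∃ δ : ℝ, 0 < δ ∧ ∀ fs : List (ℕ → ℕ), (∀ f ∈ fs, PD f) → ∀ (G : ℕ → ℝ) (d : ℝ), Expanding G d → ∀ κ : ℝ, 0 ≤ κ →
      d * (2 / 9) + κ < 1 → ∃ c K : ℝ, 0 < c ∧ ∀ X : ℕ, 1 ≤ X →
        ({m : ℕ | 1 ≤ m ∧ m ≤ X ∧ ¬ ∀ N : ℕ, 1 ≤ N → Even N → |(N : ℝ) - G (comp fs m)| ≤ (comp fs m : ℝ) ^ κ →
          Good 3 (9 / 100) δ N}.ncard : ℝ) ≤ K * X * Real.exp (-(c * Real.log X ^ ((1 : ℝ) / (fs.length + 1))))) ∧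
    (∃ δ : ℝ, 0 < δ ∧ ∀ fs : List (ℕ → ℕ), (∀ f ∈ fs, PD f) → ∀ (G : ℕ → ℝ) (d : ℝ), Expanding G d → ∀ κ : ℝ, 0 ≤ κ →
      d * (1 / 29) + κ < 1 → ∃ c K : ℝ, 0 < c ∧ ∀ X : ℕ, 1 ≤ X →
        ({m : ℕ | 1 ≤ m ∧ m ≤ X ∧ ¬ ∀ N : ℕ, 1 ≤ N → Even N → |(N : ℝ) - G (comp fs m)| ≤ (comp fs m : ℝ) ^ κ →
          Good 4 (1 / 15) δ N}.ncard : ℝ) ≤ K * X * Real.exp (-(c * Real.log X ^ ((1 : ℝ) / (fs.length + 1))))) ∧
    (∀ (r : ℕ) (ϑ σ : ℝ), 1 ≤ r → 0 < ϑ → ϑ ≤ 1 → ϑ / 2 ≤ σ → σ < ϑ → 1 < σ * richert r →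
      ∀ d κ : ℝ, 1 ≤ d → 0 ≤ κ → d * (2 * σ - ϑ) + κ < 1 →
      ∃ δ : ℝ, 0 < δ ∧ ∀ fs : List (ℕ → ℕ), (∀ f ∈ fs, PD f) → ∀ G : ℕ → ℝ, Expanding G d →
        ∃ c K : ℝ, 0 < c ∧ ∀ X : ℕ, 1 ≤ X →
          ({m : ℕ | 1 ≤ m ∧ m ≤ X ∧ ¬ ∀ N : ℕ, 1 ≤ N → Even N → |(N : ℝ) - G (comp fs m)| ≤ (comp fs m : ℝ) ^ κ →
            GoodScale r (σ / 4) ϑ δ N}.ncard : ℝ) ≤
          K * X * Real.exp (-(c * Real.log X ^ ((1 : ℝ) / (fs.length + 1))))) ∧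
    (∀ f : ℕ → ℕ, (∀ a b : ℕ, Nat.Coprime a b → f (a * b) = f a + f b) →
      (∃ C : ℕ, ∀ q j : ℕ, q.Prime → 1 ≤ j → f (q ^ j) ≤ C * q ^ j) →
      (∃ P : ℕ, ∀ p q : ℕ, p.Prime → q.Prime → P ≤ p → P ≤ q → f p = f q → p = q) → PD f) ∧
    (PD (fun n => n.primeFactors.sup id) ∧ PD (fun n => sInf {k : ℕ | n ∣ k.factorial})) ∧
    ∀ a d : ℝ, 0 < a → 1 ≤ d → Expanding (fun v => a * (v : ℝ) ^ d) d := by
  classical
  refine ⟨sqrt_part 3 (9 / 100) (2 / 9) (by norm_num) ?_, sqrt_part 4 (1 / 15) (1 / 29) (by norm_num) ?_,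
    fun r ϑ σ hr h0 h1 h2 h3 h4 d κ hd hκ h5 => ?_, fun f a1 a2 a3 => pd_additive a1 a2 a3, ⟨pd_largest, pd_kempner⟩,
    fun a d ha hd => expanding_pow ha hd⟩
  · obtain ⟨δ, C, h1, h2, h3⟩ := FewExceptionsAllScales.result.2.1
    exact ⟨δ, C, h1, h2, fun X hX => by convert h3 X hX⟩
  · obtain ⟨δ, C, h1, h2, h3⟩ := FewExceptionsAllScales.result.2.2
    exact ⟨δ, C, h1, h2, fun X hX => by convert h3 X hX⟩
  · obtain ⟨ε, hε, h6⟩ := room hd h5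
    obtain ⟨δ, hδ, C, hC, h⟩ := count_scale r ϑ σ ε hr h0 h1 h2 h3 h4 hε
    exact ⟨δ, hδ, fun fs hfs G hG => good_nat Even (GoodScale r (σ / 4) ϑ δ) fs hfs hG (by linarith) hκ h6
      (weaken (P := fun X t => 1 ≤ t ∧ t ≤ X ∧ Even t ∧ ¬ GoodScale r (σ / 4) ϑ δ t) hC h)⟩

end Pool.Agent.Results.MP_b58c63_nt.AdditiveValuesH35
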