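import Pool.Agent.Results.MP_b58c63_nt.FewExceptionsAllScales
import Pool.Agent.N671.DA.Win

/-!
# Goldbach with a prime in `(√N, 4 √N)`, or at any scale, and an almost prime, for ALL even numbers near functions of the
denominators of good approximations

Let `α_1, …, α_m` be real numbers. We consider the natural numbers `q` with `‖q α_j - β_j‖ ≤ c q^(-τ)` for all `j`, `‖x‖` the
distance to the nearest integer; for `β = 0`, `c = 1`, `τ = 1 / m` these include the denominators of all best simultaneous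
approximations (the denominators of the convergents for `m = 1`). They form a very sparse sequence, with gaps growing
exponentially for almost all `α` if `τ = 1 / m`. Let `G` have steps bounded below by a positive constant and growth at most
`v^d`, for example `G(v) = v` or `G(v) = a v^d`.

* For all `α` in `ℝ^m` outside a set of Hausdorff dimension at most `(m + 2 d / 9 + κ) / (1 + τ)` and all `c`, for all but
  finitely many such `q` ALL even `N` with `|N - G q| ≤ q^κ` have at least `δ 𝔖(N) √N / (log N) ^ 2` primes `p` in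
  `(√N, 4 √N)` such that `N - p` has at most three prime factors; with four prime factors the dimension is at most
  `(m + d / 29 + κ) / (1 + τ)`. For `τ = 1 / m` this is less than `m` if `d / 29 + κ < 1`: the statement holds for almost all
  `α` even for `G(v) = v^d` with `d < 29`.
* The same at all scales: let `0 < ϑ ≤ 1`, `ϑ / 2 ≤ σ < ϑ` and `σ Λ_r > 1`. For all `α` outside a set of Hausdorff dimension at
  most `(m + d (2 σ - ϑ) + κ) / (1 + τ)` there is `δ > 0` such that for all but finitely many such `q` ALL even `N` near `G q`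
  have, for EVERY `x` with `N ^ ϑ ≤ x ≤ N / 2`, at least `δ 𝔖(N) x / (log N) ^ 2` primes `p` in `(x / 4, x)` such that `N - p`
  has at most `r` prime factors. For large `r` one can take `σ = ϑ / 2`, and the bound is `(m + κ) / (1 + τ)` for every `d`.
-/

set_option autoImplicit false

namespace Pool.Agent.Results.MP_b58c63_nt.GoodApproximationsH35

open Finset Filter Topology
open FewExceptionsAllScales (sing richert inWindow)
open Pool.Agent.N671.DA (Solves Expanding expanding_pow approx_win_nat)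

/-- the even numbers `N` with fewer than `δ 𝔖(N) √N / (log N) ^ 2` primes `p` in `(√N, 4 √N)` such that `N - p` has at most
`r` prime factors, all at least `N ^ ζ / 2` -/
def Bad (r : ℕ) (ζ δ : ℝ) : Set ℕ :=
  {N : ℕ | Even N ∧ (inWindow r ζ (4 * √(N : ℝ)) N : ℝ) < δ * sing N * (√(N : ℝ) / Real.log N ^ 2)}

/-- the even numbers `N` such that for some scale `x` between `N ^ ϑ` and `N / 2` there are fewer than
`δ 𝔖(N) x / (log N) ^ 2` primes `p` in `(x / 4, x)` such that `N - p` has at most `r` prime factors -/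
def BadScale (r : ℕ) (ζ ϑ δ : ℝ) : Set ℕ :=
  {N : ℕ | Even N ∧ ∃ x : ℝ, (N : ℝ) ^ ϑ ≤ x ∧ x ≤ N / 2 ∧
    (inWindow r ζ x N : ℝ) < δ * sing N * (x / Real.log N ^ 2)}

open Classical in
lemma sqrt_part (r : ℕ) (ζ s : ℝ) (hs : 0 ≤ s)
    (h : ∃ δ C : ℝ, 0 < δ ∧ 0 < C ∧ ∀ X : ℕ, 1 ≤ X →
      (((Icc 1 X).filter (fun N : ℕ => Even N ∧ (inWindow r ζ (4 * √(N : ℝ)) N : ℝ) <
        δ * sing N * (√(N : ℝ) / Real.log N ^ 2))).card : ℝ) ≤ C * (X : ℝ) ^ s) :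
    ∃ δ : ℝ, 0 < δ ∧ ∀ (G : ℕ → ℝ) (d : ℝ), Expanding G d → ∀ κ : ℝ, 0 ≤ κ → κ ≤ 1 →
      ∀ (m : ℕ) (β : Fin m → ℝ) (τ : ℝ), 0 < τ →
      ∃ E : Set (Fin m → ℝ), dimH E ≤ ENNReal.ofReal ((m + (d * s + κ)) / (1 + τ)) ∧
        ∀ α, α ∉ E → ∀ c : ℝ, ∃ Q : ℕ, ∀ q : ℕ, Q ≤ q → Solves α β q (c * (q : ℝ) ^ (-τ)) →
          ∀ N : ℕ, 1 ≤ N → Even N → |(N : ℝ) - G q| ≤ (q : ℝ) ^ κ →
            δ * sing N * (√(N : ℝ) / Real.log N ^ 2) ≤ (inWindow r ζ (4 * √(N : ℝ)) N : ℝ) := by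
  obtain ⟨δ, C, hδ, hC, h⟩ := h
  refine ⟨δ, hδ, fun G d hG κ hκ hκ1 m β τ hτ => ?_⟩
  obtain ⟨E, h3, h4⟩ := approx_win_nat (Bad r ζ δ) hG (s := s) (κ := κ) hs hκ hκ1 (fun ε hε => by
    refine ⟨C, fun X hX => le_trans ?_ ((h X hX).trans ?_)⟩
    · apply Nat.cast_le.2
      apply Finset.card_le_card
      intro N hN
      rw [mem_filter, mem_Ioc] at hN
      rw [mem_filter, mem_Icc]
      exact ⟨⟨hN.1.1, hN.1.2⟩, hN.2⟩
    · have hX1 : (1 : ℝ) ≤ X := by exact_mod_cast hX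
      apply mul_le_mul_of_nonneg_left _ hC.le
      apply Real.rpow_le_rpow_of_exponent_le hX1
      linarith) β hτ
  refine ⟨E, h3, fun α hα c => ?_⟩
  obtain ⟨Q, hQ⟩ := h4 α hα c
  refine ⟨Q, fun q hq h1 N hN hN2 h2 => ?_⟩
  by_contra hcon
  push Not at hcon
  exact hQ q hq h1 N (Or.inr ⟨hN2, hcon⟩) h2

open Classical in
lemma scale_part (r : ℕ) (ϑ σ : ℝ) (hr : 1 ≤ r) (h0 : 0 < ϑ) (h1 : ϑ ≤ 1) (h2 : ϑ / 2 ≤ σ) (h3 : σ < ϑ)
    (h4 : 1 < σ * richert r) {G : ℕ → ℝ} {d : ℝ} (hG : Expanding G d) {κ : ℝ} (hκ : 0 ≤ κ) (hκ1 : κ ≤ 1)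
    {m : ℕ} (β : Fin m → ℝ) {τ : ℝ} (hτ : 0 < τ) :
    ∃ E : Set (Fin m → ℝ), dimH E ≤ ENNReal.ofReal ((m + (d * (2 * σ - ϑ) + κ)) / (1 + τ)) ∧
      ∀ α, α ∉ E → ∃ δ : ℝ, 0 < δ ∧ ∀ c : ℝ, ∃ Q : ℕ, ∀ q : ℕ, Q ≤ q → Solves α β q (c * (q : ℝ) ^ (-τ)) →
        ∀ N : ℕ, 1 ≤ N → Even N → |(N : ℝ) - G q| ≤ (q : ℝ) ^ κ → ∀ x : ℝ, (N : ℝ) ^ ϑ ≤ x → x ≤ N / 2 →
          δ * sing N * (x / Real.log N ^ 2) ≤ (inWindow r (σ / 4) x N : ℝ) := by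
  have hs : 0 ≤ 2 * σ - ϑ := by linarith
  have hall : ∀ j : ℕ, ∃ (δ : ℝ) (E : Set (Fin m → ℝ)), 0 < δ ∧
      dimH E ≤ ENNReal.ofReal ((m + (d * (2 * σ - ϑ + 1 / ((j : ℝ) + 1)) + κ)) / (1 + τ)) ∧
      ∀ α, α ∉ E → ∀ c : ℝ, ∃ Q : ℕ, ∀ q : ℕ, Q ≤ q → Solves α β q (c * (q : ℝ) ^ (-τ)) →
        ∀ n : ℕ, (n = 0 ∨ n ∈ BadScale r (σ / 4) ϑ δ) → ¬ |(n : ℝ) - G q| ≤ (q : ℝ) ^ κ := by
    intro j
    have hj : (0 : ℝ) < 1 / ((j : ℝ) + 1) := by positivity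
    obtain ⟨δ, C, hδ, hC, h⟩ := FewExceptionsAllScales.result.1 r ϑ σ (1 / ((j : ℝ) + 1)) hr h0 h1 h2 h3 h4 hj
    obtain ⟨E, h5, h6⟩ := approx_win_nat (BadScale r (σ / 4) ϑ δ) hG
      (s := 2 * σ - ϑ + 1 / ((j : ℝ) + 1)) (κ := κ) (by positivity) hκ hκ1 (fun ε hε => by
        refine ⟨C, fun X hX => le_trans ?_ ((h X hX).trans ?_)⟩
        · apply Nat.cast_le.2
          apply Finset.card_le_card
          intro N hN
          rw [mem_filter, mem_Ioc] at hN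
          rw [mem_filter, mem_Icc]
          exact ⟨⟨hN.1.1, hN.1.2⟩, hN.2⟩
        · have hX1 : (1 : ℝ) ≤ X := by exact_mod_cast hX
          apply mul_le_mul_of_nonneg_left _ hC.le
          apply Real.rpow_le_rpow_of_exponent_le hX1
          linarith) β hτ
    exact ⟨δ, E, hδ, h5, h6⟩
  choose δ F hδ hF1 hF2 using hall
  have hlim : Tendsto (fun j : ℕ => ENNReal.ofReal ((m + (d * (2 * σ - ϑ + 1 / ((j : ℝ) + 1)) + κ)) / (1 + τ))) atTop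
      (𝓝 (ENNReal.ofReal ((m + (d * (2 * σ - ϑ + 0) + κ)) / (1 + τ)))) :=
    ENNReal.tendsto_ofReal
      ((((((tendsto_one_div_add_atTop_nhds_zero_nat (𝕜 := ℝ)).const_add (2 * σ - ϑ)).const_mul d).add_const κ).const_add
        (m : ℝ)).div_const (1 + τ))
  rw [add_zero] at hlim
  refine ⟨⋂ j, F j, ge_of_tendsto' hlim fun j => (dimH_mono (Set.iInter_subset _ j)).trans (hF1 j),
    fun α hα => ?_⟩
  rw [Set.mem_iInter] at hα
  push Not at hα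
  obtain ⟨j, hj⟩ := hα
  refine ⟨δ j, hδ j, fun c => ?_⟩
  obtain ⟨Q, hQ⟩ := hF2 j α hj c
  refine ⟨Q, fun q hq h5 N hN hN2 h6 x hx1 hx2 => ?_⟩
  by_contra hcon
  push Not at hcon
  exact hQ q hq h5 N (Or.inr ⟨hN2, x, hx1, hx2, hcon⟩) h6

/-- **Theorem.** Let `G` have steps `≥ a > 0` and growth at most `v^d`, `0 ≤ κ ≤ 1`, `β` in `ℝ^m` and `τ > 0`. (1), (2) There is
an absolute `δ > 0` such that for all `α` in `ℝ^m` outside a set of Hausdorff dimension at most `(m + 2 d / 9 + κ) / (1 + τ)`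
(respectively `(m + d / 29 + κ) / (1 + τ)`) and all `c`, for all large `q` with `‖q α_j - β_j‖ ≤ c q^(-τ)` for all `j`, ALL even
`N ≥ 1` with `|N - G q| ≤ q^κ` have at least `δ 𝔖(N) √N / (log N) ^ 2` primes `p` with `√N < p < 4 √N` such that `N - p` has at
most three (respectively four) prime factors, all at least `N ^ (9 / 100) / 2` (respectively `N ^ (1 / 15) / 2`). (3) Let
`r ≥ 1`, `0 < ϑ ≤ 1`, `ϑ / 2 ≤ σ < ϑ` and `σ Λ_r > 1`. For all `α` outside a set of Hausdorff dimension at most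
`(m + d (2 σ - ϑ) + κ) / (1 + τ)` there is `δ > 0` such that for all `c` and all large such `q` ALL even `N ≥ 1` with
`|N - G q| ≤ q^κ` have, for EVERY `x` with `N ^ ϑ ≤ x ≤ N / 2`, at least `δ 𝔖(N) x / (log N) ^ 2` primes `p` in `(x / 4, x)`
such that `N - p` has at most `r` prime factors. (4) The functions `a v^d` with `a > 0`, `d ≥ 1` are examples of `G`. -/
theorem result :
    (∃ δ : ℝ, 0 < δ ∧ ∀ (G : ℕ → ℝ) (d : ℝ), Expanding G d → ∀ κ : ℝ, 0 ≤ κ → κ ≤ 1 →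
      ∀ (m : ℕ) (β : Fin m → ℝ) (τ : ℝ), 0 < τ →
      ∃ E : Set (Fin m → ℝ), dimH E ≤ ENNReal.ofReal ((m + (d * (2 / 9) + κ)) / (1 + τ)) ∧
        ∀ α, α ∉ E → ∀ c : ℝ, ∃ Q : ℕ, ∀ q : ℕ, Q ≤ q → Solves α β q (c * (q : ℝ) ^ (-τ)) →
          ∀ N : ℕ, 1 ≤ N → Even N → |(N : ℝ) - G q| ≤ (q : ℝ) ^ κ →
            δ * sing N * (√(N : ℝ) / Real.log N ^ 2) ≤ (inWindow 3 (9 / 100) (4 * √(N : ℝ)) N : ℝ)) ∧
    (∃ δ : ℝ, 0 < δ ∧ ∀ (G : ℕ → ℝ) (d : ℝ), Expanding G d → ∀ κ : ℝ, 0 ≤ κ → κ ≤ 1 →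
      ∀ (m : ℕ) (β : Fin m → ℝ) (τ : ℝ), 0 < τ →
      ∃ E : Set (Fin m → ℝ), dimH E ≤ ENNReal.ofReal ((m + (d * (1 / 29) + κ)) / (1 + τ)) ∧
        ∀ α, α ∉ E → ∀ c : ℝ, ∃ Q : ℕ, ∀ q : ℕ, Q ≤ q → Solves α β q (c * (q : ℝ) ^ (-τ)) →
          ∀ N : ℕ, 1 ≤ N → Even N → |(N : ℝ) - G q| ≤ (q : ℝ) ^ κ →
            δ * sing N * (√(N : ℝ) / Real.log N ^ 2) ≤ (inWindow 4 (1 / 15) (4 * √(N : ℝ)) N : ℝ)) ∧
    (∀ (r : ℕ) (ϑ σ : ℝ), 1 ≤ r → 0 < ϑ → ϑ ≤ 1 → ϑ / 2 ≤ σ → σ < ϑ → 1 < σ * richert r →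
      ∀ (G : ℕ → ℝ) (d : ℝ), Expanding G d → ∀ κ : ℝ, 0 ≤ κ → κ ≤ 1 →
      ∀ (m : ℕ) (β : Fin m → ℝ) (τ : ℝ), 0 < τ →
      ∃ E : Set (Fin m → ℝ), dimH E ≤ ENNReal.ofReal ((m + (d * (2 * σ - ϑ) + κ)) / (1 + τ)) ∧
        ∀ α, α ∉ E → ∃ δ : ℝ, 0 < δ ∧ ∀ c : ℝ, ∃ Q : ℕ, ∀ q : ℕ, Q ≤ q → Solves α β q (c * (q : ℝ) ^ (-τ)) →
          ∀ N : ℕ, 1 ≤ N → Even N → |(N : ℝ) - G q| ≤ (q : ℝ) ^ κ → ∀ x : ℝ, (N : ℝ) ^ ϑ ≤ x → x ≤ N / 2 →
            δ * sing N * (x / Real.log N ^ 2) ≤ (inWindow r (σ / 4) x N : ℝ)) ∧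
    ∀ a d : ℝ, 0 < a → 1 ≤ d → Expanding (fun v => a * (v : ℝ) ^ d) d :=
  ⟨sqrt_part 3 (9 / 100) (2 / 9) (by norm_num) FewExceptionsAllScales.result.2.1,
    sqrt_part 4 (1 / 15) (1 / 29) (by norm_num) FewExceptionsAllScales.result.2.2,
    fun r ϑ σ hr h0 h1 h2 h3 h4 _ _ hG _ hκ hκ1 _ β _ hτ => scale_part r ϑ σ hr h0 h1 h2 h3 h4 hG hκ hκ1 β hτ,
    fun a d ha hd => expanding_pow ha hd⟩

end Pool.Agent.Results.MP_b58c63_nt.GoodApproximationsH35
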