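import Pool.Agent.Results.MP_b58c63_nt.FewExceptionsAllScales
import Pool.Agent.R482.ST.Star

/-!
# Goldbach with a prime in `(√N, 4 √N)`, or at any scale, and an almost prime, for ALL even numbers near powers, orbits and
other sequences

Let `f_k`, `k = 0, 1, 2, …`, be positive functions on `(a, ∞)`, `a ≥ 0`, such that `f_k(t) / t` is nondecreasing, and such
that the sequence `f_k(t)` has exponent of convergence at most `τ` for each `t > a`: for instance `f_k(t) = t ^ (v_k)` for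
exponents `v_k ≥ 1` (`τ = 0`; all powers, the powers `t ^ (3 ^ k)` of Mills, …), the orbits `f_k(t) = g (g (⋯ g (t)))` of any
map `g` with `g(t) > t` and `g(t) / t` nondecreasing (`τ = 0`), and `f_k(t) = v_k t`. Let `θ < 1`.

* For all `α > a` outside a set of Hausdorff dimension at most `(2 / 9 + τ) / (1 - θ)` and all but finitely many `k` ALL
  even numbers `N` in the window `|N - f_k(α)| ≤ c f_k(α) ^ θ` have at least `δ 𝔖(N) √N / (log N) ^ 2` primes `p` in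
  `(√N, 4 √N)` such that `N - p` has at most three prime factors; with four prime factors the dimension is at most
  `(1 / 29 + τ) / (1 - θ)`.
* Let `0 < ϑ ≤ 1`, `ϑ / 2 ≤ σ < ϑ` and `σ Λ_r > 1`. For all `α > a` outside a set of Hausdorff dimension at most
  `(2 σ - ϑ + τ) / (1 - θ)` there is `δ > 0` such that for all but finitely many `k` ALL even numbers `N` in the window have,
  for EVERY `x` with `N ^ ϑ ≤ x ≤ N / 2`, at least `δ 𝔖(N) x / (log N) ^ 2` primes `p` in `(x / 4, x)` such that `N - p` has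
  at most `r` prime factors. For large `r` one can take `σ = ϑ / 2`: for powers and orbits the exceptional `α` then form a set
  of Hausdorff dimension zero, for every `θ < 1`.
-/

set_option autoImplicit false

namespace Pool.Agent.Results.MP_b58c63_nt.StarshapedSequencesH35

open Finset Filter Topology
open FewExceptionsAllScales (sing richert inWindow)

/-- the functions `f n` are positive on `(a, ∞)`, `a ≥ 0`, and `f n x / x` is nondecreasing there -/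
def Starshaped (a : ℝ) (f : ℕ → ℝ → ℝ) : Prop :=
  0 ≤ a ∧ ∀ n : ℕ, ∀ x y : ℝ, a < x → x ≤ y → 0 < f n x ∧ f n x / x ≤ f n y / y

/-- for each `x > a` the exponent of convergence of the sequence `f n x` is at most `τ` -/
def ExpLe (a : ℝ) (f : ℕ → ℝ → ℝ) (τ : ℝ) : Prop :=
  ∀ x : ℝ, a < x → ∀ t : ℝ, τ < t → Summable (fun n : ℕ => (f n x) ^ (-t))

/-- the even numbers `N` with fewer than `δ 𝔖(N) √N / (log N) ^ 2` primes `p` in `(√N, 4 √N)` such that `N - p` has at most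
`r` prime factors, all at least `N ^ ζ / 2` -/
def Bad (r : ℕ) (ζ δ : ℝ) : Set ℕ :=
  {N : ℕ | Even N ∧ (inWindow r ζ (4 * √(N : ℝ)) N : ℝ) < δ * sing N * (√(N : ℝ) / Real.log N ^ 2)}

/-- the even numbers `N` such that for some scale `x` between `N ^ ϑ` and `N / 2` there are fewer than
`δ 𝔖(N) x / (log N) ^ 2` primes `p` in `(x / 4, x)` such that `N - p` has at most `r` prime factors -/
def BadScale (r : ℕ) (ζ ϑ δ : ℝ) : Set ℕ :=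
  {N : ℕ | Even N ∧ ∃ x : ℝ, (N : ℝ) ^ ϑ ≤ x ∧ x ≤ N / 2 ∧
    (inWindow r ζ x N : ℝ) < δ * sing N * (x / Real.log N ^ 2)}

open Classical in
lemma sqrt_part (r : ℕ) (ζ s : ℝ) (hs : 0 ≤ s)
    (h : ∃ δ C : ℝ, 0 < δ ∧ 0 < C ∧ ∀ X : ℕ, 1 ≤ X →
      (((Icc 1 X).filter (fun N : ℕ => Even N ∧ (inWindow r ζ (4 * √(N : ℝ)) N : ℝ) <
        δ * sing N * (√(N : ℝ) / Real.log N ^ 2))).card : ℝ) ≤ C * (X : ℝ) ^ s) :
    ∃ δ : ℝ, 0 < δ ∧ ∀ (a : ℝ) (f : ℕ → ℝ → ℝ) (τ θ : ℝ), Starshaped a f → 0 ≤ τ → ExpLe a f τ → θ < 1 →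
      ∃ E : Set ℝ, dimH E ≤ ENNReal.ofReal ((s + τ) / (1 - θ)) ∧ ∀ α : ℝ, a < α → α ∉ E →
        ∀ c : ℝ, ∃ k₀ : ℕ, ∀ k : ℕ, k₀ ≤ k → ∀ N : ℕ, Even N → |(N : ℝ) - f k α| ≤ c * (f k α) ^ θ →
          0 < N ∧ δ * sing N * (√(N : ℝ) / Real.log N ^ 2) ≤ (inWindow r ζ (4 * √(N : ℝ)) N : ℝ) := by
  obtain ⟨δ, C, hδ, hC, h⟩ := h
  refine ⟨δ, hδ, fun a f τ θ hf hτ hE hθ1 => ?_⟩
  obtain ⟨E, h3, h4⟩ := Pool.Agent.R482.ST.win_nat (Bad r ζ δ) hf hτ hE (s := s) hs hθ1 (fun ε hε => by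
    refine ⟨C, fun X hX => le_trans ?_ ((h X hX).trans ?_)⟩
    · apply Nat.cast_le.2
      apply Finset.card_le_card
      intro N hN
      rw [mem_filter, mem_Ioc] at hN
      rw [mem_filter, mem_Icc]
      exact ⟨⟨hN.1.1, hN.1.2⟩, hN.2⟩
    · have hX1 : (1 : ℝ) ≤ X := by exact_mod_cast hX
      apply mul_le_mul_of_nonneg_left _ hC.le
      apply Real.rpow_le_rpow_of_exponent_le hX1
      linarith)
  refine ⟨E, h3, fun α hα hαE c => ?_⟩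
  obtain ⟨k₀, hk⟩ := h4 α hα hαE c
  refine ⟨k₀, fun k hk1 N hN hN2 => ?_⟩
  obtain ⟨h5, h6⟩ := hk k hk1 N hN2
  refine ⟨h5, ?_⟩
  by_contra hcon
  push Not at hcon
  exact h6 ⟨hN, hcon⟩

open Classical in
lemma scale_part (r : ℕ) (ϑ σ : ℝ) (hr : 1 ≤ r) (h0 : 0 < ϑ) (h1 : ϑ ≤ 1) (h2 : ϑ / 2 ≤ σ) (h3 : σ < ϑ)
    (h4 : 1 < σ * richert r) {a : ℝ} {f : ℕ → ℝ → ℝ} {τ θ : ℝ} (hf : Starshaped a f) (hτ : 0 ≤ τ)
    (hE : ExpLe a f τ) (hθ1 : θ < 1) :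
    ∃ E : Set ℝ, dimH E ≤ ENNReal.ofReal ((2 * σ - ϑ + τ) / (1 - θ)) ∧ ∀ α : ℝ, a < α → α ∉ E →
      ∃ δ : ℝ, 0 < δ ∧ ∀ c : ℝ, ∃ k₀ : ℕ, ∀ k : ℕ, k₀ ≤ k → ∀ N : ℕ, Even N →
        |(N : ℝ) - f k α| ≤ c * (f k α) ^ θ → 0 < N ∧ ∀ x : ℝ, (N : ℝ) ^ ϑ ≤ x → x ≤ N / 2 →
          δ * sing N * (x / Real.log N ^ 2) ≤ (inWindow r (σ / 4) x N : ℝ) := by
  have hs : 0 ≤ 2 * σ - ϑ := by linarith
  have hall : ∀ j : ℕ, ∃ (δ : ℝ) (E : Set ℝ), 0 < δ ∧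
      dimH E ≤ ENNReal.ofReal ((2 * σ - ϑ + 1 / ((j : ℝ) + 1) + τ) / (1 - θ)) ∧
      ∀ α : ℝ, a < α → α ∉ E → ∀ c : ℝ, ∃ k₀ : ℕ, ∀ k : ℕ, k₀ ≤ k → ∀ m : ℕ,
        |(m : ℝ) - f k α| ≤ c * (f k α) ^ θ → 0 < m ∧ m ∉ BadScale r (σ / 4) ϑ δ := by
    intro j
    have hj : (0 : ℝ) < 1 / ((j : ℝ) + 1) := by positivity
    obtain ⟨δ, C, hδ, hC, h⟩ := FewExceptionsAllScales.result.1 r ϑ σ (1 / ((j : ℝ) + 1)) hr h0 h1 h2 h3 h4 hj
    obtain ⟨E, h5, h6⟩ := Pool.Agent.R482.ST.win_nat (BadScale r (σ / 4) ϑ δ) hf hτ hE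
      (s := 2 * σ - ϑ + 1 / ((j : ℝ) + 1)) (by positivity) hθ1 (fun ε hε => by
        refine ⟨C, fun X hX => le_trans ?_ ((h X hX).trans ?_)⟩
        · apply Nat.cast_le.2
          apply Finset.card_le_card
          intro N hN
          rw [mem_filter, mem_Ioc] at hN
          rw [mem_filter, mem_Icc]
          exact ⟨⟨hN.1.1, hN.1.2⟩, hN.2⟩
        · have hX1 : (1 : ℝ) ≤ X := by exact_mod_cast hX
          apply mul_le_mul_of_nonneg_left _ hC.le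
          apply Real.rpow_le_rpow_of_exponent_le hX1
          linarith)
    exact ⟨δ, E, hδ, h5, h6⟩
  choose δ G hδ hG1 hG2 using hall
  have hlim : Tendsto (fun m : ℕ => ENNReal.ofReal ((2 * σ - ϑ + 1 / ((m : ℝ) + 1) + τ) / (1 - θ))) atTop
      (𝓝 (ENNReal.ofReal ((2 * σ - ϑ + 0 + τ) / (1 - θ)))) :=
    ENNReal.tendsto_ofReal
      (((tendsto_one_div_add_atTop_nhds_zero_nat.const_add (2 * σ - ϑ)).add_const τ).div_const (1 - θ))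
  rw [add_zero] at hlim
  refine ⟨⋂ m, G m, ge_of_tendsto' hlim fun m => (dimH_mono (Set.iInter_subset _ m)).trans (hG1 m),
    fun α hα hαE => ?_⟩
  rw [Set.mem_iInter] at hαE
  push Not at hαE
  obtain ⟨j, hj⟩ := hαE
  refine ⟨δ j, hδ j, fun c => ?_⟩
  obtain ⟨k₀, hk⟩ := hG2 j α hα hj c
  refine ⟨k₀, fun k hk1 N hN hN2 => ?_⟩
  obtain ⟨h5, h6⟩ := hk k hk1 N hN2
  refine ⟨h5, fun x hx1 hx2 => ?_⟩
  by_contra hcon
  push Not at hcon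
  exact h6 ⟨hN, x, hx1, hx2, hcon⟩

/-- **Theorem.** Let `f` be starshaped functions on `(a, ∞)` of exponent of convergence at most `τ ≥ 0` and `θ < 1`.
(1), (2) There is an absolute `δ > 0` such that for all `α > a` outside a set of Hausdorff dimension at most
`(2 / 9 + τ) / (1 - θ)` (respectively `(1 / 29 + τ) / (1 - θ)`), all `c` and all but finitely many `k` ALL even `N` with
`|N - f_k(α)| ≤ c f_k(α) ^ θ` are positive and have at least `δ 𝔖(N) √N / (log N) ^ 2` primes `p` with `√N < p < 4 √N` such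
that `N - p` has at most three (respectively four) prime factors, all at least `N ^ (9 / 100) / 2` (respectively
`N ^ (1 / 15) / 2`). (3) Let `r ≥ 1`, `0 < ϑ ≤ 1`, `ϑ / 2 ≤ σ < ϑ` and `σ Λ_r > 1`. For all `α > a` outside a set of Hausdorff
dimension at most `(2 σ - ϑ + τ) / (1 - θ)` there is `δ > 0` such that for all `c` and all but finitely many `k` ALL even `N`
in the window have, for EVERY `x` with `N ^ ϑ ≤ x ≤ N / 2`, at least `δ 𝔖(N) x / (log N) ^ 2` primes `p` in `(x / 4, x)` such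
that `N - p` has at most `r` prime factors. (4) - (6) The functions `v_n x`, `v_n > 0`, are starshaped on `(0, ∞)`, of
exponent `τ` if `v` has exponent of convergence at most `τ`; the functions `x ^ (v_n)`, `v_n ≥ 1`, are starshaped on
`(1, ∞)`, of exponent `0` if the sums of `exp (-t v_n)` converge for `t > 0`; and the iterates of a map `g` with `g(x) > x`
for `x > a` and `g(x) / x` nondecreasing are starshaped on `(a, ∞)`, of exponent `0`. -/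
theorem result :
    (∃ δ : ℝ, 0 < δ ∧ ∀ (a : ℝ) (f : ℕ → ℝ → ℝ) (τ θ : ℝ), Starshaped a f → 0 ≤ τ → ExpLe a f τ → θ < 1 →
      ∃ E : Set ℝ, dimH E ≤ ENNReal.ofReal ((2 / 9 + τ) / (1 - θ)) ∧ ∀ α : ℝ, a < α → α ∉ E →
        ∀ c : ℝ, ∃ k₀ : ℕ, ∀ k : ℕ, k₀ ≤ k → ∀ N : ℕ, Even N → |(N : ℝ) - f k α| ≤ c * (f k α) ^ θ →
          0 < N ∧ δ * sing N * (√(N : ℝ) / Real.log N ^ 2) ≤ (inWindow 3 (9 / 100) (4 * √(N : ℝ)) N : ℝ)) ∧
    (∃ δ : ℝ, 0 < δ ∧ ∀ (a : ℝ) (f : ℕ → ℝ → ℝ) (τ θ : ℝ), Starshaped a f → 0 ≤ τ → ExpLe a f τ → θ < 1 →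
      ∃ E : Set ℝ, dimH E ≤ ENNReal.ofReal ((1 / 29 + τ) / (1 - θ)) ∧ ∀ α : ℝ, a < α → α ∉ E →
        ∀ c : ℝ, ∃ k₀ : ℕ, ∀ k : ℕ, k₀ ≤ k → ∀ N : ℕ, Even N → |(N : ℝ) - f k α| ≤ c * (f k α) ^ θ →
          0 < N ∧ δ * sing N * (√(N : ℝ) / Real.log N ^ 2) ≤ (inWindow 4 (1 / 15) (4 * √(N : ℝ)) N : ℝ)) ∧
    (∀ (r : ℕ) (ϑ σ : ℝ), 1 ≤ r → 0 < ϑ → ϑ ≤ 1 → ϑ / 2 ≤ σ → σ < ϑ → 1 < σ * richert r →
      ∀ (a : ℝ) (f : ℕ → ℝ → ℝ) (τ θ : ℝ), Starshaped a f → 0 ≤ τ → ExpLe a f τ → θ < 1 →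
      ∃ E : Set ℝ, dimH E ≤ ENNReal.ofReal ((2 * σ - ϑ + τ) / (1 - θ)) ∧ ∀ α : ℝ, a < α → α ∉ E →
        ∃ δ : ℝ, 0 < δ ∧ ∀ c : ℝ, ∃ k₀ : ℕ, ∀ k : ℕ, k₀ ≤ k → ∀ N : ℕ, Even N →
          |(N : ℝ) - f k α| ≤ c * (f k α) ^ θ → 0 < N ∧ ∀ x : ℝ, (N : ℝ) ^ ϑ ≤ x → x ≤ N / 2 →
            δ * sing N * (x / Real.log N ^ 2) ≤ (inWindow r (σ / 4) x N : ℝ)) ∧
    (∀ (v : ℕ → ℝ) (τ : ℝ), (∀ n, 0 < v n) → (∀ t : ℝ, τ < t → Summable (fun n : ℕ => (v n) ^ (-t))) →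
      Starshaped 0 (fun n x => v n * x) ∧ ExpLe 0 (fun n x => v n * x) τ) ∧
    (∀ v : ℕ → ℝ, (∀ n, 1 ≤ v n) → (∀ t : ℝ, 0 < t → Summable fun n : ℕ => Real.exp (-(t * v n))) →
      Starshaped 1 (fun n x => x ^ (v n)) ∧ ExpLe 1 (fun n x => x ^ (v n)) 0) ∧
    (∀ (a : ℝ) (g : ℝ → ℝ), 0 ≤ a → (∀ x y : ℝ, a < x → x ≤ y → g x / x ≤ g y / y) → (∀ x : ℝ, a < x → x < g x) →
      Starshaped a (fun n x => g^[n] x) ∧ ExpLe a (fun n x => g^[n] x) 0) :=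
  ⟨sqrt_part 3 (9 / 100) (2 / 9) (by norm_num) FewExceptionsAllScales.result.2.1,
    sqrt_part 4 (1 / 15) (1 / 29) (by norm_num) FewExceptionsAllScales.result.2.2,
    fun r ϑ σ hr h0 h1 h2 h3 h4 _ _ _ _ hf hτ hE hθ => scale_part r ϑ σ hr h0 h1 h2 h3 h4 hf hτ hE hθ,
    Pool.Agent.R482.ST.ex_mul, Pool.Agent.R482.ST.ex_pow, Pool.Agent.R482.ST.ex_orbit⟩

end Pool.Agent.Results.MP_b58c63_nt.StarshapedSequencesH35
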