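import Pool.Agent.N760.IT.D
import Pool.Agent.V7H35.GoldCount

/-!
# Goldbach with a prime in `(√N, 4 √N)`, or at any scale, and an almost prime, for ALL even numbers near the members of almost
all orbits of Euler's function

Let `φ_k` be the `k`-th iterate of Euler's function, `φ_0(m) = m`. Let `f` be a positive multiplicative function of at most
polynomial growth such that `f p ≤ M p` for the large primes `p`, with different values at different large primes; for example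
the identity, Euler's function or the sum of the divisors. Let `G` have steps bounded below by a positive constant and growth
at most `v ^ d`, for example `G v = v` or `a v^d`.

* Let `d / 29 + κ < 1`. There is `K(m)` tending to infinity such that for almost all `m`, for all `k ≤ K(m)`, with
  `v = f(φ_k(m))`, ALL even `N` with `|N - G v| ≤ v ^ κ` have at least `δ 𝔖(N) √N / (log N) ^ 2` primes `p` in `(√N, 4 √N)` such
  that `N - p` has at most four prime factors; with three prime factors the condition is `2 d / 9 + κ < 1`.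
* Let `0 < ϑ ≤ 1`, `ϑ / 2 ≤ σ < ϑ`, `σ Λ_r > 1` and `d (2 σ - ϑ) + κ < 1`. Then the same is true for the property: for EVERY
  `x` with `N ^ ϑ ≤ x ≤ N / 2` there are at least `δ 𝔖(N) x / (log N) ^ 2` primes `p` in `(x / 4, x)` such that `N - p` has at
  most `r` prime factors.

The values `f(φ_k(m))` are in general taken with very large multiplicities, and so this does not follow from the number of
exceptional `N`.
-/

set_option autoImplicit false

namespace Pool.Agent.Results.MP_b58c63_nt.TotientOrbitsH35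

open Finset Filter
open FewExceptionsAllScales (sing richert inWindow)
open Pool.Agent.V7H35.GoldCount (Good GoodScale count_sqrt count_scale weaken room)
open Pool.Agent.N733.TG (LM Expanding lm_totient lm_sigma expanding_pow)
open Pool.Agent.N760.IT (orb lm_id orbit_good_nat)
open Pool.Agent.N826.IT.Orb (AlmostAll)

lemma sqrt_part (r : ℕ) (ζ s : ℝ) (hs : 0 ≤ s)
    (h : ∃ δ C : ℝ, 0 < δ ∧ 0 < C ∧ ∀ X : ℕ, 1 ≤ X →
      (by classical exact (((Icc 1 X).filter (fun N : ℕ => Even N ∧ (inWindow r ζ (4 * √(N : ℝ)) N : ℝ) <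
        δ * sing N * (√(N : ℝ) / Real.log N ^ 2))).card : ℝ)) ≤ C * (X : ℝ) ^ s) :
    ∃ δ : ℝ, 0 < δ ∧ ∀ f : ℕ → ℕ, LM f → ∀ (G : ℕ → ℝ) (d : ℝ), Expanding G d → ∀ κ : ℝ, 0 ≤ κ →
      d * s + κ < 1 → ∃ K : ℕ → ℕ, Tendsto K atTop atTop ∧
        AlmostAll (fun m => ∀ k ≤ K m, ∀ N : ℕ, 1 ≤ N → Even N → |(N : ℝ) - G (orb f k m)| ≤ (orb f k m : ℝ) ^ κ →
          Good r ζ δ N) := by
  classical
  obtain ⟨δ, hδ, C, hC, h⟩ := count_sqrt r ζ s (by
    obtain ⟨δ, C, h1, h2, h3⟩ := h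
    exact ⟨δ, C, h1, h2, fun X hX => by convert h3 X hX⟩)
  exact ⟨δ, hδ, fun f hf G d hG κ hκ h1 => orbit_good_nat Even (Good r ζ δ) hf hG hs hκ h1
    (weaken (P := fun X t => 1 ≤ t ∧ t ≤ X ∧ Even t ∧ ¬ Good r ζ δ t) hC h)⟩

/-- **Theorem.** Let `f` be multiplicative and positive, of at most polynomial growth, with `f p ≤ M p` at the large primes,
and injective there (`LM f`). Let `G` have steps `≥ a > 0` and growth at most `v ^ d`, and `κ ≥ 0`. Write `v = f(φ_k(m))`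
(`orb f k m`). (1) If `2 d / 9 + κ < 1`, then there is `K(m)` tending to infinity such that for almost all `m`, for all
`k ≤ K(m)`, ALL even `N ≥ 1` with `|N - G v| ≤ v ^ κ` have at least `δ 𝔖(N) √N / (log N) ^ 2` primes `p` in `(√N, 4 √N)` such
that `N - p` has at most three prime factors, all at least `N ^ (9 / 100) / 2`; `δ > 0` is absolute. (2) The same with four
prime factors, all at least `N ^ (1 / 15) / 2`, if `d / 29 + κ < 1`. (3) Let `r ≥ 1`, `0 < ϑ ≤ 1`, `ϑ / 2 ≤ σ < ϑ`,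
`σ Λ_r > 1` and `d (2 σ - ϑ) + κ < 1`. There is a `δ > 0`, depending only on `r, ϑ, σ, d, κ`, such that for all `f` and `G` as
above there is `K(m)` tending to infinity such that for almost all `m`, for all `k ≤ K(m)`, ALL even `N ≥ 1` with
`|N - G v| ≤ v ^ κ` have, for EVERY `x` with `N ^ ϑ ≤ x ≤ N / 2`, at least `δ 𝔖(N) x / (log N) ^ 2` primes `p` in `(x / 4, x)`
such that `N - p` has at most `r` prime factors. (4), (5) The identity, Euler's function and the sum of the divisors are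
examples of such functions `f`, and `a v ^ d` with `a > 0`, `d ≥ 1` is an example of `G`. -/
theorem result :
    (∃ δ : ℝ, 0 < δ ∧ ∀ f : ℕ → ℕ, LM f → ∀ (G : ℕ → ℝ) (d : ℝ), Expanding G d → ∀ κ : ℝ, 0 ≤ κ →
      d * (2 / 9) + κ < 1 → ∃ K : ℕ → ℕ, Tendsto K atTop atTop ∧
        AlmostAll (fun m => ∀ k ≤ K m, ∀ N : ℕ, 1 ≤ N → Even N → |(N : ℝ) - G (orb f k m)| ≤ (orb f k m : ℝ) ^ κ →
          Good 3 (9 / 100) δ N)) ∧
    (∃ δ : ℝ, 0 < δ ∧ ∀ f : ℕ → ℕ, LM f → ∀ (G : ℕ → ℝ) (d : ℝ), Expanding G d → ∀ κ : ℝ, 0 ≤ κ →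
      d * (1 / 29) + κ < 1 → ∃ K : ℕ → ℕ, Tendsto K atTop atTop ∧
        AlmostAll (fun m => ∀ k ≤ K m, ∀ N : ℕ, 1 ≤ N → Even N → |(N : ℝ) - G (orb f k m)| ≤ (orb f k m : ℝ) ^ κ →
          Good 4 (1 / 15) δ N)) ∧
    (∀ (r : ℕ) (ϑ σ : ℝ), 1 ≤ r → 0 < ϑ → ϑ ≤ 1 → ϑ / 2 ≤ σ → σ < ϑ → 1 < σ * richert r →
      ∀ d κ : ℝ, 1 ≤ d → 0 ≤ κ → d * (2 * σ - ϑ) + κ < 1 →
      ∃ δ : ℝ, 0 < δ ∧ ∀ f : ℕ → ℕ, LM f → ∀ G : ℕ → ℝ, Expanding G d →
        ∃ K : ℕ → ℕ, Tendsto K atTop atTop ∧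
        AlmostAll (fun m => ∀ k ≤ K m, ∀ N : ℕ, 1 ≤ N → Even N → |(N : ℝ) - G (orb f k m)| ≤ (orb f k m : ℝ) ^ κ →
          GoodScale r (σ / 4) ϑ δ N)) ∧
    (LM (fun m => m) ∧ LM Nat.totient ∧ LM (fun m => ∑ d ∈ m.divisors, d)) ∧
    ∀ a d : ℝ, 0 < a → 1 ≤ d → Expanding (fun v => a * (v : ℝ) ^ d) d := by
  classical
  refine ⟨sqrt_part 3 (9 / 100) (2 / 9) (by norm_num) ?_, sqrt_part 4 (1 / 15) (1 / 29) (by norm_num) ?_,
    fun r ϑ σ hr h0 h1 h2 h3 h4 d κ hd hκ h5 => ?_, ⟨lm_id, lm_totient, lm_sigma⟩, fun a d ha hd => expanding_pow ha hd⟩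
  · obtain ⟨δ, C, h1, h2, h3⟩ := FewExceptionsAllScales.result.2.1
    exact ⟨δ, C, h1, h2, fun X hX => by convert h3 X hX⟩
  · obtain ⟨δ, C, h1, h2, h3⟩ := FewExceptionsAllScales.result.2.2
    exact ⟨δ, C, h1, h2, fun X hX => by convert h3 X hX⟩
  · obtain ⟨ε, hε, h6⟩ := room hd h5
    obtain ⟨δ, hδ, C, hC, h⟩ := count_scale r ϑ σ ε hr h0 h1 h2 h3 h4 hε
    exact ⟨δ, hδ, fun f hf G hG => orbit_good_nat Even (GoodScale r (σ / 4) ϑ δ) hf hG (by linarith) hκ h6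
      (weaken (P := fun X t => 1 ≤ t ∧ t ≤ X ∧ Even t ∧ ¬ GoodScale r (σ / 4) ϑ δ t) hC h)⟩

end Pool.Agent.Results.MP_b58c63_nt.TotientOrbitsH35
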